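import Pool.Agent.Y234.GS.StmC

/-!
# Project GS: passage to the fraction field and to the algebraic closure
-/

set_option autoImplicit false

namespace Pool.Agent.Y41.GS

open Pool.Agent.Y234.GS MvPolynomial
open scoped TensorProduct

theorem monC_single {A ι : Type} [Fintype ι] [DecidableEq ι] [CommMonoid A] (x : ι → A) (i : ι) :
    mon x (Pi.single i 1) = x i := by
  unfold mon
  rw [Finset.prod_eq_single i]
  · simp
  · intro j _ hj
    simp [Pi.single_eq_of_ne hj]
  · intro h
    exact absurd (Finset.mem_univ i) h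

theorem mon_algebraMap {A B ι : Type} [Fintype ι] [CommRing A] [CommRing B] [Algebra A B]
    (x : ι → A) (b : ι → ℕ) :
    algebraMap A B (mon x b) = mon (fun i => algebraMap A B (x i)) b := by
  simp [mon, map_prod]

theorem grob_ne {K A ι : Type} [Field K] [CommRing A] [Algebra K A] [LinearOrder ι] [Fintype ι]
    {x : ι → A} {w : ι → ℕ} {Δ : Finset (Finset ι)} (h : Grob K x w Δ) (i : ι) : x i ≠ 0 := by
  classical
  have hd : deg (Pi.single i 1 : ι → ℕ) = 1 := by
    unfold deg
    rw [Finset.sum_eq_single i]
    · simp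
    · intro j _ hj
      simp [Pi.single_eq_of_ne hj]
    · intro h
      exact absurd (Finset.mem_univ i) h
  have hs : supp (Pi.single i 1 : ι → ℕ) ∈ Δ := by
    have : supp (Pi.single i 1 : ι → ℕ) = {i} := by
      ext j
      simp only [supp, Finset.mem_filter, Finset.mem_univ, true_and, Finset.mem_singleton]
      constructor
      · intro hj
        by_contra hne
        exact hj (Pi.single_eq_of_ne hne 1)
      · rintro rfl
        simp
    rw [this]
    exact h.sing i
  have h1 := (h.indep 1).ne_zero ⟨Pi.single i 1, hd, hs⟩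
  simpa [monC_single] using h1

theorem exists_poly {K A ι : Type} [Field K] [CommRing A] [Algebra K A] {x : ι → A}
    (h : RMod K x) (a : A) : ∃ G : MvPolynomial ι K, aeval x G = a := by
  have h1 : a ∈ Algebra.adjoin K (Set.range x) := by
    rw [h.gen]
    trivial
  rw [Algebra.adjoin_range_eq_range_aeval] at h1
  exact h1

/-- FRAC: passage to the field of fractions. -/
theorem frac : S_FRAC := by
  intro K A ι _ _ _ _ _ _ x w Δ hR hG
  classical
  have hinj : Function.Injective (algebraMap A (FractionRing A)) :=
    IsFractionRing.injective A (FractionRing A)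
  have hev : ∀ G : MvPolynomial ι K, aeval (fun i => algebraMap A (FractionRing A) (x i)) G =
      algebraMap A (FractionRing A) (aeval x G) := fun G =>
    aeval_algebraMap_apply (FractionRing A) x G
  refine ⟨⟨?_, ?_, ?_⟩, ⟨hG.down, hG.sing, hG.winj, ?_, ?_⟩, ?_⟩
  · intro i h
    exact grob_ne hG i (hinj (by rw [h, map_zero]))
  · intro G h0 d
    rw [hev] at h0 ⊢
    rw [hR.hom G (hinj (by rw [h0, map_zero])) d, map_zero]
  · intro a
    obtain ⟨n, d, hd, rfl⟩ := IsFractionRing.div_surjective (A := A) a
    obtain ⟨G, rfl⟩ := exists_poly hR n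
    obtain ⟨H, rfl⟩ := exists_poly hR d
    have hd0 : algebraMap A (FractionRing A) (aeval x H) ≠ 0 := by
      intro h
      exact nonZeroDivisors.ne_zero hd (hinj (by rw [h, map_zero]))
    refine ⟨G, H, ?_, ?_⟩
    · rw [hev]
      exact hd0
    · rw [hev, hev, div_mul_cancel₀ _ hd0]
  · intro m
    have h1 := (hG.indep m).map' (IsScalarTower.toAlgHom K A (FractionRing A)).toLinearMap
      (LinearMap.ker_eq_bot.mpr hinj)
    have e : (fun b : {b : ι → ℕ // deg b = m ∧ supp b ∈ Δ} =>
        mon (fun i => algebraMap A (FractionRing A) (x i)) b.1) =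
        (⇑(IsScalarTower.toAlgHom K A (FractionRing A)).toLinearMap ∘
          fun b : {b : ι → ℕ // deg b = m ∧ supp b ∈ Δ} => mon x b.1) := by
      funext b
      exact (mon_algebraMap x b.1).symm
    rw [e]
    exact h1
  · intro b hb
    have h1 := hG.red b hb
    have h2 : algebraMap A (FractionRing A) (mon x b) ∈ Submodule.map
        (IsScalarTower.toAlgHom K A (FractionRing A)).toLinearMap (Submodule.span K
          {a : A | ∃ b' : ι → ℕ, deg b' = deg b ∧ supp b' ∈ Δ ∧ wt w b' < wt w b ∧
            a = mon x b'}) := ⟨_, h1, rfl⟩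
    rw [Submodule.map_span, mon_algebraMap] at h2
    refine Submodule.span_mono ?_ h2
    rintro _ ⟨a, ⟨b', k1, k2, k3, rfl⟩, rfl⟩
    exact ⟨b', k1, k2, k3, mon_algebraMap x b'⟩
  · intro hS i
    have hxi := grob_ne hG i
    have := hS i
    have hf : ∀ y : Submonoid.powers (x i),
        IsUnit (IsScalarTower.toAlgHom K A (FractionRing A) (y : A)) := by
      rintro ⟨_, n, rfl⟩
      apply IsUnit.mk0
      show algebraMap A (FractionRing A) (x i ^ n) ≠ 0
      intro h
      exact pow_ne_zero n hxi (hinj (by rw [h, map_zero]))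
    set φ : Localization.Away (x i) →ₐ[K] FractionRing A :=
      IsLocalization.liftAlgHom (M := Submonoid.powers (x i)) hf with hφ
    have hφa : ∀ a : A, φ (algebraMap A (Localization.Away (x i)) a) =
        algebraMap A (FractionRing A) a := fun a => IsLocalization.lift_eq _ a
    have hφi : Function.Injective φ := by
      have h1 := (IsLocalization.lift_injective_iff (M := Submonoid.powers (x i))
        (S := Localization.Away (x i)) (g := (IsScalarTower.toAlgHom K A (FractionRing A) :
          A →+* FractionRing A)) hf).mpr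
      refine h1 ?_
      intro a b
      constructor
      · intro h
        have := congrArg φ h
        rw [hφa, hφa] at this
        exact this
      · intro h
        rw [hinj h]
    have hrange : φ.range = Algebra.adjoin K (insert (algebraMap A (FractionRing A) (x i))⁻¹
        (Set.range (fun l => algebraMap A (FractionRing A) (x l)))) := by
      have hinv : φ (IsLocalization.mk' (Localization.Away (x i)) (1 : A)
          (⟨x i, 1, pow_one _⟩ : Submonoid.powers (x i))) =
          (algebraMap A (FractionRing A) (x i))⁻¹ := by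
        apply eq_inv_of_mul_eq_one_left
        rw [← hφa, ← map_mul]
        have : IsLocalization.mk' (Localization.Away (x i)) (1 : A)
          (⟨x i, 1, pow_one _⟩ : Submonoid.powers (x i)) *
          algebraMap A (Localization.Away (x i)) (x i) = 1 := by
          have h := IsLocalization.mk'_spec (Localization.Away (x i)) (1 : A)
            (⟨x i, 1, pow_one _⟩ : Submonoid.powers (x i))
          simpa using h
        rw [this, map_one]
      apply le_antisymm
      · rintro _ ⟨z, rfl⟩
        obtain ⟨a, ⟨_, n, rfl⟩, rfl⟩ := IsLocalization.exists_mk'_eq (Submonoid.powers (x i)) z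
        have ha : ∀ a : A, algebraMap A (FractionRing A) a ∈ Algebra.adjoin K
            (insert (algebraMap A (FractionRing A) (x i))⁻¹
              (Set.range (fun l => algebraMap A (FractionRing A) (x l)))) := by
          intro a
          obtain ⟨G, rfl⟩ := exists_poly hR a
          rw [← hev]
          refine Algebra.adjoin_mono (Set.subset_insert _ _) ?_
          rw [Algebra.adjoin_range_eq_range_aeval]
          exact ⟨G, rfl⟩
        have e : φ (IsLocalization.mk' (Localization.Away (x i)) a
            (⟨x i ^ n, n, rfl⟩ : Submonoid.powers (x i))) =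
            algebraMap A (FractionRing A) a * ((algebraMap A (FractionRing A) (x i))⁻¹) ^ n := by
          have hne : algebraMap A (FractionRing A) (x i) ≠ 0 := fun h =>
            hxi (hinj (by rw [h, map_zero]))
          rw [inv_pow, eq_mul_inv_iff_mul_eq₀ (pow_ne_zero n hne), ← map_pow, ← hφa, ← map_mul,
            IsLocalization.mk'_spec, hφa]
        show φ _ ∈ _
        rw [e]
        exact Subalgebra.mul_mem _ (ha a) (Subalgebra.pow_mem _
          (Algebra.subset_adjoin (Set.mem_insert _ _)) n)
      · rw [Algebra.adjoin_le_iff]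
        rintro z (rfl | ⟨l, rfl⟩)
        · exact ⟨_, hinv⟩
        · exact ⟨algebraMap A (Localization.Away (x i)) (x l), hφa _⟩
    have e1 : Localization.Away (x i) ≃ₐ[K] φ.range := AlgEquiv.ofInjective φ hφi
    rw [hrange] at e1
    exact Algebra.Smooth.of_equiv e1

section base

variable {K k A ι : Type} [Field K] [Field k] [Algebra K k] [CommRing A] [Algebra K A]

/-- The coefficients of `G` in the coordinate `j`. -/
noncomputable def cmp {κ : Type*} (B : Module.Basis κ K k) (j : κ) (G : MvPolynomial ι k) :
    MvPolynomial ι K :=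
  ∑ m ∈ G.support, monomial m (B.repr (coeff m G) j)

theorem coeff_cmp {κ : Type*} (B : Module.Basis κ K k) (j : κ) (G : MvPolynomial ι k)
    (m : ι →₀ ℕ) : coeff m (cmp B j G) = B.repr (coeff m G) j := by
  classical
  unfold cmp
  rw [coeff_sum]
  simp only [coeff_monomial]
  rw [Finset.sum_ite_eq' G.support m]
  split_ifs with h
  · rfl
  · rw [notMem_support_iff.mp h, map_zero, Finsupp.zero_apply]

theorem cmp_hom {κ : Type*} (B : Module.Basis κ K k) (j : κ) (G : MvPolynomial ι k) (d : ℕ) :
    cmp B j (homogeneousComponent d G) = homogeneousComponent d (cmp B j G) := by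
  classical
  ext m
  rw [coeff_cmp, coeff_homogeneousComponent, coeff_homogeneousComponent, coeff_cmp]
  split_ifs with h
  · rfl
  · rw [map_zero, Finsupp.zero_apply]

variable [Fintype ι]

theorem aeval_tmul (x : ι → A) (G : MvPolynomial ι k) :
    aeval (fun i => (1 : k) ⊗ₜ[K] x i) G =
      ∑ m ∈ G.support, (coeff m G) ⊗ₜ[K] (∏ i, x i ^ m i) := by
  rw [aeval_def, eval₂_eq']
  refine Finset.sum_congr rfl (fun m _ => ?_)
  have e : ∏ i, ((1 : k) ⊗ₜ[K] x i) ^ m i = (1 : k) ⊗ₜ[K] (∏ i, x i ^ m i) := by
    have h := map_prod (Algebra.TensorProduct.includeRight : A →ₐ[K] k ⊗[K] A)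
      (fun i => x i ^ m i) Finset.univ
    simp only [map_pow, Algebra.TensorProduct.includeRight_apply] at h
    exact h.symm
  rw [e, Algebra.TensorProduct.algebraMap_apply, Algebra.TensorProduct.tmul_mul_tmul]
  simp

theorem equiv_aeval {κ : Type*} [DecidableEq κ] (B : Module.Basis κ K k) (j : κ) (x : ι → A)
    (G : MvPolynomial ι k) :
    TensorProduct.equivFinsuppOfBasisLeft (N := A) B
      (aeval (fun i => (1 : k) ⊗ₜ[K] x i) G) j = aeval x (cmp B j G) := by
  rw [aeval_tmul, map_sum, Finsupp.finsetSum_apply]
  unfold cmp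
  rw [map_sum]
  refine Finset.sum_congr rfl (fun m _ => ?_)
  rw [TensorProduct.equivFinsuppOfBasisLeft_apply_tmul_apply, aeval_monomial,
    Algebra.smul_def, Finsupp.prod_fintype _ _ (fun i => pow_zero _)]

theorem rmod_base {x : ι → A} (h : RMod K x) : RMod k (fun i => (1 : k) ⊗ₜ[K] x i) := by
  constructor
  · intro G h0 d
    classical
    have B := Module.Basis.ofVectorSpace K k
    apply (TensorProduct.equivFinsuppOfBasisLeft (N := A) B).injective
    rw [map_zero]
    ext j
    rw [equiv_aeval, cmp_hom, Finsupp.zero_apply]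
    apply h.hom
    rw [← equiv_aeval, h0, map_zero, Finsupp.zero_apply]
  · have h1 := Algebra.TensorProduct.adjoin_one_tmul_image_eq_top (A := k) (Set.range x) h.gen
    rw [← Set.range_comp] at h1
    exact h1

theorem mon_tmul (x : ι → A) (b : ι → ℕ) :
    mon (fun i => (1 : k) ⊗ₜ[K] x i) b = (1 : k) ⊗ₜ[K] mon x b := by
  unfold mon
  have h := map_prod (Algebra.TensorProduct.includeRight : A →ₐ[K] k ⊗[K] A)
    (fun i => x i ^ b i) Finset.univ
  simp only [map_pow, Algebra.TensorProduct.includeRight_apply] at h
  exact h.symm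

theorem grob_base [LinearOrder ι] {x : ι → A} {w : ι → ℕ} {Δ : Finset (Finset ι)}
    (h : Grob K x w Δ) : Grob k (fun i => (1 : k) ⊗ₜ[K] x i) w Δ := by
  refine ⟨h.down, h.sing, h.winj, ?_, ?_⟩
  · intro m
    have h1 := Module.Flat.linearIndependent_one_tmul (S := k) (h.indep m)
    have e : (fun b : {b : ι → ℕ // deg b = m ∧ supp b ∈ Δ} =>
        mon (fun i => (1 : k) ⊗ₜ[K] x i) b.1) = fun b => (1 : k) ⊗ₜ[K] mon x b.1 := by
      funext b
      exact mon_tmul x b.1
    rw [e]
    exact h1
  · intro b hb
    rw [mon_tmul]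
    refine Submodule.span_induction (p := fun a _ => (1 : k) ⊗ₜ[K] a ∈ Submodule.span k
      {a : k ⊗[K] A | ∃ b' : ι → ℕ, deg b' = deg b ∧ supp b' ∈ Δ ∧ wt w b' < wt w b ∧
        a = mon (fun i => (1 : k) ⊗ₜ[K] x i) b'}) ?_ ?_ ?_ ?_ (h.red b hb)
    · rintro _ ⟨b', k1, k2, k3, rfl⟩
      exact Submodule.subset_span ⟨b', k1, k2, k3, (mon_tmul x b').symm⟩
    · rw [TensorProduct.tmul_zero]
      exact Submodule.zero_mem _
    · intro a c _ _ ha hc
      rw [TensorProduct.tmul_add]
      exact Submodule.add_mem _ ha hc
    · intro r a _ ha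
      have e : (1 : k) ⊗ₜ[K] (r • a) = (algebraMap K k r) • ((1 : k) ⊗ₜ[K] a) := by
        rw [TensorProduct.tmul_smul, TensorProduct.smul_tmul', TensorProduct.smul_tmul',
          Algebra.smul_def, smul_eq_mul]
      rw [e]
      exact Submodule.smul_mem _ _ ha

omit [Fintype ι] in
/-- Base change of a localization. -/
theorem smooth_base (y : A) [Algebra.Smooth K (Localization.Away y)] :
    Algebra.Smooth k (Localization.Away ((1 : k) ⊗ₜ[K] y)) := by
  have hu : ∀ z : Submonoid.powers y,
      IsUnit (((IsScalarTower.toAlgHom K (k ⊗[K] A) (Localization.Away ((1 : k) ⊗ₜ[K] y))).comp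
        (Algebra.TensorProduct.includeRight : A →ₐ[K] k ⊗[K] A)) (z : A)) := by
    rintro ⟨_, n, rfl⟩
    have h := IsLocalization.map_units (Localization.Away ((1 : k) ⊗ₜ[K] y))
      (⟨((1 : k) ⊗ₜ[K] y) ^ n, n, rfl⟩ : Submonoid.powers ((1 : k) ⊗ₜ[K] y))
    simpa using h
  have hu' : ∀ z : Submonoid.powers ((1 : k) ⊗ₜ[K] y),
      IsUnit ((Algebra.TensorProduct.map (AlgHom.id k k)
        (IsScalarTower.toAlgHom K A (Localization.Away y))) (z : k ⊗[K] A)) := by
    rintro ⟨_, n, rfl⟩
    have h := IsLocalization.map_units (Localization.Away y)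
      (⟨y ^ n, n, rfl⟩ : Submonoid.powers y)
    have h2 := h.map (Algebra.TensorProduct.includeRight :
      Localization.Away y →ₐ[K] k ⊗[K] Localization.Away y)
    simpa using h2
  let f : k ⊗[K] Localization.Away y →ₐ[k] Localization.Away ((1 : k) ⊗ₜ[K] y) :=
    Algebra.TensorProduct.lift (Algebra.ofId k _)
      (IsLocalization.liftAlgHom (M := Submonoid.powers y) hu) (fun _ _ => Commute.all _ _)
  let g : Localization.Away ((1 : k) ⊗ₜ[K] y) →ₐ[k] k ⊗[K] Localization.Away y :=
    IsLocalization.liftAlgHom (M := Submonoid.powers ((1 : k) ⊗ₜ[K] y)) hu'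
  have e : k ⊗[K] Localization.Away y ≃ₐ[k] Localization.Away ((1 : k) ⊗ₜ[K] y) := by
    refine AlgEquiv.ofAlgHom f g ?_ ?_
    · apply IsLocalization.algHom_ext (R := k) (A := k ⊗[K] A)
        (Submonoid.powers ((1 : k) ⊗ₜ[K] y))
      apply Algebra.TensorProduct.ext
      · ext
      · ext a
        have e1 : g (algebraMap (k ⊗[K] A) _ ((1 : k) ⊗ₜ[K] a)) =
            (1 : k) ⊗ₜ[K] algebraMap A (Localization.Away y) a := by
          show IsLocalization.lift hu' _ = _
          rw [IsLocalization.lift_eq]
          simp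
        have e2 : f ((1 : k) ⊗ₜ[K] algebraMap A (Localization.Away y) a) =
            algebraMap (k ⊗[K] A) _ ((1 : k) ⊗ₜ[K] a) := by
          show Algebra.TensorProduct.lift _ _ _ _ = _
          rw [Algebra.TensorProduct.lift_tmul, map_one, one_mul]
          show IsLocalization.lift hu _ = _
          rw [IsLocalization.lift_eq]
          simp
        show f (g (algebraMap (k ⊗[K] A) _ ((1 : k) ⊗ₜ[K] a))) =
          algebraMap (k ⊗[K] A) _ ((1 : k) ⊗ₜ[K] a)
        rw [e1, e2]
    · apply Algebra.TensorProduct.ext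
      · ext
      · apply IsLocalization.algHom_ext (R := K) (A := A) (Submonoid.powers y)
        ext a
        have e1 : g (algebraMap (k ⊗[K] A) _ ((1 : k) ⊗ₜ[K] a)) =
            (1 : k) ⊗ₜ[K] algebraMap A (Localization.Away y) a := by
          show IsLocalization.lift hu' _ = _
          rw [IsLocalization.lift_eq]
          simp
        have e2 : f ((1 : k) ⊗ₜ[K] algebraMap A (Localization.Away y) a) =
            algebraMap (k ⊗[K] A) _ ((1 : k) ⊗ₜ[K] a) := by
          show Algebra.TensorProduct.lift _ _ _ _ = _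
          rw [Algebra.TensorProduct.lift_tmul, map_one, one_mul]
          show IsLocalization.lift hu _ = _
          rw [IsLocalization.lift_eq]
          simp
        show g (f ((1 : k) ⊗ₜ[K] algebraMap A (Localization.Away y) a)) =
          (1 : k) ⊗ₜ[K] algebraMap A (Localization.Away y) a
        rw [e2, e1]
  exact Algebra.Smooth.of_equiv e

end base

/-- DESCP: passage to an algebraically closed field, characteristic `p`. -/
theorem descp : S_DESCP := by
  intro K A ι _ _ _ _ _ x w Δ p hp hR hG hS
  refine ⟨AlgebraicClosure K, inferInstance, inferInstance, AlgebraicClosure K ⊗[K] A,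
    inferInstance, inferInstance, fun i => (1 : AlgebraicClosure K) ⊗ₜ[K] x i, ?_, rmod_base hR,
    grob_base hG, ?_⟩
  · exact charP_of_injective_algebraMap (algebraMap K (AlgebraicClosure K)).injective p
  · intro i
    have := hS i
    exact smooth_base (x i)

end Pool.Agent.Y41.GS
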