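import Pool.Agent.Y234.GS.StmA

/-!
# Project GS: connectedness of the complex of standard monomials

A section of degree zero with the given symbols on the vertices is integral over the field of
coefficients, so that its symbols are all equal.
-/

set_option autoImplicit false

namespace Pool.Agent.Y41.GS

open Pool.Agent.Y234.GS
open scoped Pointwise

section basic

variable {K L ι : Type} [Field K] [Field L] [Algebra K L] [Fintype ι]

theorem mon_add (x : ι → L) (b c : ι → ℕ) : mon x (b + c) = mon x b * mon x c := by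
  simp [mon, pow_add, Finset.prod_mul_distrib]

theorem deg_add (b c : ι → ℕ) : deg (b + c) = deg b + deg c := by
  simp [deg, Finset.sum_add_distrib]

theorem wt_add (w : ι → ℕ) (b c : ι → ℕ) : wt w (b + c) = wt w b + wt w c := by
  simp [wt, mul_add, Finset.sum_add_distrib]

theorem mon_single [DecidableEq ι] (x : ι → L) (i : ι) (n : ℕ) :
    mon x (Pi.single i n) = x i ^ n := by
  unfold mon
  rw [Finset.prod_eq_single i]
  · simp
  · intro j _ hj
    simp [Pi.single_eq_of_ne hj]
  · intro h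
    exact absurd (Finset.mem_univ i) h

theorem deg_single [DecidableEq ι] (i : ι) (n : ℕ) : deg (Pi.single i n) = n := by
  unfold deg
  rw [Finset.sum_eq_single i]
  · simp
  · intro j _ hj
    simp [Pi.single_eq_of_ne hj]
  · intro h
    exact absurd (Finset.mem_univ i) h

theorem wt_single [DecidableEq ι] (w : ι → ℕ) (i : ι) (n : ℕ) :
    wt w (Pi.single i n) = w i * n := by
  unfold wt
  rw [Finset.sum_eq_single i]
  · simp
  · intro j _ hj
    simp [Pi.single_eq_of_ne hj]
  · intro h
    exact absurd (Finset.mem_univ i) h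

theorem WV_mono (x : ι → L) (w : ι → ℕ) (e : ℕ) {s t : ℤ} (h : s ≤ t) :
    WV K x w e s ≤ WV K x w e t := by
  apply Submodule.span_mono
  rintro a ⟨b, h1, h2, h3⟩
  exact ⟨b, h1, h2.trans h, h3⟩

theorem WV_mul (x : ι → L) (w : ι → ℕ) {e f : ℕ} {s t : ℤ} {a b : L}
    (ha : a ∈ WV K x w e s) (hb : b ∈ WV K x w f t) : a * b ∈ WV K x w (e + f) (s + t) := by
  have h := Submodule.mul_mem_mul ha hb
  unfold WV at h
  rw [Submodule.span_mul_span] at h
  refine Submodule.span_mono ?_ h
  rintro _ ⟨a, ⟨b, h1, h2, rfl⟩, a', ⟨b', h1', h2', rfl⟩, rfl⟩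
  refine ⟨b + b', ?_, ?_, ?_⟩
  · rw [deg_add, h1, h1']
  · rw [wt_add]
    push_cast
    linarith
  · exact (mon_add x b b').symm

theorem WV_pow (x : ι → L) (w : ι → ℕ) (i : ι) (N : ℕ) :
    x i ^ N ∈ WV K x w N (N * w i) := by
  classical
  refine Submodule.subset_span ⟨Pi.single i N, deg_single i N, ?_, (mon_single x i N).symm⟩
  rw [wt_single]
  push_cast
  linarith

theorem mem_WSec (x : ι → L) (w : ι → ℕ) (s : ℤ) (i : ι) (a : L) :
    a ∈ WSec K x w 0 s {i} ↔ ∃ N : ℕ, x i ^ N * a ∈ WV K x w N (s + N * w i) := by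
  unfold WSec
  constructor
  · rintro ⟨N, e, h1, h2⟩
    have he : e = N := by
      simp at h1
      exact h1
    subst he
    refine ⟨e, ?_⟩
    simpa using h2
  · rintro ⟨N, h⟩
    refine ⟨N, N, by simp, ?_⟩
    simpa using h

theorem WSec_add (x : ι → L) (w : ι → ℕ) (s : ℤ) (i : ι) {a b : L}
    (ha : a ∈ WSec K x w 0 s {i}) (hb : b ∈ WSec K x w 0 s {i}) :
    a + b ∈ WSec K x w 0 s {i} := by
  rw [mem_WSec] at *
  obtain ⟨N, hN⟩ := ha
  obtain ⟨M, hM⟩ := hb
  refine ⟨N + M, ?_⟩
  have h1 := WV_mul x w (WV_pow (K := K) x w i M) hN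
  have h2 := WV_mul x w (WV_pow (K := K) x w i N) hM
  have e : x i ^ (N + M) * (a + b) = x i ^ M * (x i ^ N * a) + x i ^ N * (x i ^ M * b) := by
    ring
  rw [e]
  refine Submodule.add_mem _ ?_ ?_
  · have e1 : (M : ℤ) * w i + (s + N * w i) = s + ((N + M : ℕ) : ℤ) * w i := by
      push_cast
      ring
    rw [e1, Nat.add_comm M N] at h1
    exact h1
  · have e1 : (N : ℤ) * w i + (s + M * w i) = s + ((N + M : ℕ) : ℤ) * w i := by
      push_cast
      ring
    rw [e1] at h2
    exact h2

theorem WSec_smul (x : ι → L) (w : ι → ℕ) (s : ℤ) (i : ι) (r : K) {a : L}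
    (ha : a ∈ WSec K x w 0 s {i}) : r • a ∈ WSec K x w 0 s {i} := by
  rw [mem_WSec] at *
  obtain ⟨N, hN⟩ := ha
  refine ⟨N, ?_⟩
  rw [mul_smul_comm]
  exact Submodule.smul_mem _ _ hN

theorem WSec_zero (x : ι → L) (w : ι → ℕ) (s : ℤ) (i : ι) :
    (0 : L) ∈ WSec K x w 0 s {i} := by
  rw [mem_WSec]
  exact ⟨0, by simp⟩

theorem WSec_mul (x : ι → L) (w : ι → ℕ) (s t : ℤ) (i : ι) {a b : L}
    (ha : a ∈ WSec K x w 0 s {i}) (hb : b ∈ WSec K x w 0 t {i}) :
    a * b ∈ WSec K x w 0 (s + t) {i} := by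
  rw [mem_WSec] at *
  obtain ⟨N, hN⟩ := ha
  obtain ⟨M, hM⟩ := hb
  refine ⟨N + M, ?_⟩
  have h := WV_mul x w hN hM
  have e : x i ^ (N + M) * (a * b) = x i ^ N * a * (x i ^ M * b) := by
    ring
  have e1 : s + (N : ℤ) * w i + (t + M * w i) = s + t + ((N + M : ℕ) : ℤ) * w i := by
    push_cast
    ring
  rw [e, ← e1]
  exact h

theorem WSec_mono (x : ι → L) (w : ι → ℕ) {s t : ℤ} (hst : s ≤ t) (i : ι) {a : L}
    (ha : a ∈ WSec K x w 0 s {i}) : a ∈ WSec K x w 0 t {i} := by
  rw [mem_WSec] at *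
  obtain ⟨N, hN⟩ := ha
  exact ⟨N, WV_mono x w N (by linarith) hN⟩

theorem WSec_pow (x : ι → L) (w : ι → ℕ) (i : ι) {a : L}
    (ha : a ∈ WSec K x w 0 (-1) {i}) (n : ℕ) : a ^ (n + 1) ∈ WSec K x w 0 (-1) {i} := by
  induction n with
  | zero => simpa using ha
  | succ n ih =>
    rw [pow_succ]
    exact WSec_mono x w (by norm_num) i (WSec_mul x w (-1) (-1) i ih ha)

/-- An integral element of negative weight is zero or the unit has negative weight. -/
theorem one_mem (x : ι → L) (w : ι → ℕ) (i : ι) {z : L} (hz : z ≠ 0) (hi : IsIntegral K z)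
    (ha : z ∈ WSec K x w 0 (-1) {i}) : (1 : L) ∈ WSec K x w 0 (-1) {i} := by
  have h1 : z ∈ Algebra.adjoin K {z} := Algebra.self_mem_adjoin_singleton K z
  have h2 : ((⟨z, h1⟩ : Algebra.adjoin K {z}) : L)⁻¹ ∈ Algebra.adjoin K {z} :=
    Subalgebra.inv_mem_of_algebraic _ (x := ⟨z, h1⟩) hi.isAlgebraic
  obtain ⟨p, hp⟩ := (Algebra.adjoin_singleton_eq_range_aeval K z).le h2
  have h3 : (1 : L) = ∑ n ∈ Finset.range (p.natDegree + 1), p.coeff n • z ^ (n + 1) := by
    have h4 : z * Polynomial.aeval z p = 1 := by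
      have : Polynomial.aeval z p = z⁻¹ := hp
      rw [this, mul_inv_cancel₀ hz]
    rw [Polynomial.aeval_eq_sum_range, Finset.mul_sum] at h4
    rw [← h4]
    refine Finset.sum_congr rfl (fun n _ => ?_)
    rw [mul_smul_comm, pow_succ']
  rw [h3]
  refine Finset.sum_induction _ (fun a => a ∈ WSec K x w 0 (-1) {i})
    (fun a b ha hb => WSec_add x w (-1) i ha hb) (WSec_zero x w (-1) i) ?_
  intro n _
  exact WSec_smul x w (-1) i _ (WSec_pow x w i ha n)

omit [Fintype ι] in
theorem V_pow (x : ι → L) (i : ι) (n : ℕ) : x i ^ n ∈ (VV K x) ^ n := by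
  have h : x i ∈ VV K x := Submodule.subset_span ⟨i, rfl⟩
  exact Submodule.pow_mem_pow _ h n

theorem V_mon (x : ι → L) (b : ι → ℕ) : mon x b ∈ (VV K x) ^ deg b := by
  classical
  unfold mon deg
  induction (Finset.univ : Finset ι) using Finset.induction_on with
  | empty => simp
  | insert i S hi ih =>
    rw [Finset.prod_insert hi, Finset.sum_insert hi, pow_add]
    refine Submodule.mul_mem_mul ?_ ih
    exact V_pow x i (b i)

theorem V_of_WV (x : ι → L) (w : ι → ℕ) (e : ℕ) (s : ℤ) : WV K x w e s ≤ (VV K x) ^ e := by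
  unfold WV
  rw [Submodule.span_le]
  rintro _ ⟨b, rfl, _, rfl⟩
  exact V_mon x b

theorem mem_pow_range (x : ι → L) (M : ℕ) :
    ∀ a ∈ (Set.range x) ^ M, ∃ b : ι → ℕ, deg b = M ∧ a = mon x b := by
  classical
  induction M with
  | zero =>
    intro a ha
    refine ⟨0, by simp [deg], ?_⟩
    simpa [mon] using ha
  | succ M ih =>
    intro a ha
    rw [pow_succ] at ha
    obtain ⟨a', ha', c, ⟨i, rfl⟩, rfl⟩ := ha
    obtain ⟨b, hb, rfl⟩ := ih a' ha'
    refine ⟨b + Pi.single i 1, ?_, ?_⟩
    · rw [deg_add, hb, deg_single]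
    · rw [mon_add, mon_single, pow_one]

/-- An element that multiplies a high power of each `x i` into the ring is integral. -/
theorem integral_of_pow (x : ι → L) (hx : ∀ i, x i ≠ 0) (i0 : ι) (u : L)
    (hu : ∀ i, ∃ N : ℕ, x i ^ N * u ∈ (VV K x) ^ N) : IsIntegral K u := by
  classical
  choose N hN using hu
  set n := ∑ i, N i with hn
  have hle : ∀ i, N i ≤ n := fun i => Finset.single_le_sum (fun j _ => Nat.zero_le (N j))
    (Finset.mem_univ i)
  have h1 : ∀ i, x i ^ n * u ∈ (VV K x) ^ n := by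
    intro i
    obtain ⟨m, hm⟩ := Nat.exists_eq_add_of_le (hle i)
    have h2 : x i ^ m ∈ (VV K x) ^ m := V_pow x i m
    have h3 := Submodule.mul_mem_mul h2 (hN i)
    rw [← pow_add, add_comm m (N i), ← hm] at h3
    have e : x i ^ n * u = x i ^ m * (x i ^ N i * u) := by
      rw [hm]
      ring
    rw [e]
    exact h3
  set M := Fintype.card ι * n with hM
  have hfg : ((VV K x) ^ M).FG := by
    apply Submodule.FG.pow
    exact Submodule.fg_span (Set.finite_range x)
  have hne : (VV K x) ^ M ≠ ⊥ := by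
    intro h
    have h2 : x i0 ^ M ∈ (VV K x) ^ M := V_pow x i0 M
    rw [h, Submodule.mem_bot] at h2
    exact pow_ne_zero M (hx i0) h2
  refine isIntegral_of_smul_mem_submodule ((VV K x) ^ M) hne hfg u ?_
  intro a ha
  have hs : (VV K x) ^ M = Submodule.span K ((Set.range x) ^ M) := Submodule.span_pow _ _
  rw [hs] at ha
  refine Submodule.span_induction (p := fun a _ => u • a ∈ (VV K x) ^ M) ?_ ?_ ?_ ?_ ha
  · intro a ha
    obtain ⟨b, hb, rfl⟩ := mem_pow_range x M a ha
    have hex : ∃ i, n ≤ b i := by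
      by_contra hcon
      push Not at hcon
      have h5 : deg b < Fintype.card ι * n := by
        unfold deg
        have : ∑ i, b i < ∑ _i : ι, n :=
          Finset.sum_lt_sum_of_nonempty ⟨i0, Finset.mem_univ i0⟩ (fun i _ => hcon i)
        simpa using this
      rw [hb] at h5
      exact lt_irrefl _ h5
    obtain ⟨i, hi⟩ := hex
    have hb2 : b = (b - Pi.single i n) + Pi.single i n := by
      ext j
      by_cases hj : j = i
      · subst hj
        simp [Nat.sub_add_cancel hi]
      · simp [Pi.single_eq_of_ne hj]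
    have hd : deg (b - Pi.single i n) + n = M := by
      have := deg_add (b - Pi.single i n) (Pi.single i n)
      rw [← hb2, deg_single, hb] at this
      exact this.symm
    have e : u • mon x b = mon x (b - Pi.single i n) * (x i ^ n * u) := by
      conv_lhs => rw [hb2]
      rw [mon_add, mon_single, smul_eq_mul]
      ring
    rw [e, ← hd, pow_add]
    exact Submodule.mul_mem_mul (V_mon x _) (h1 i)
  · simp
  · intro a b _ _ ha hb
    rw [smul_add]
    exact Submodule.add_mem _ ha hb
  · intro r a _ ha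
    rw [smul_comm]
    exact Submodule.smul_mem _ _ ha

end basic

theorem dd_pair {L ι : Type} [LinearOrder ι] [AddCommGroup L] (c : Finset ι → L) {i j : ι}
    (h : i < j) : dd c {i, j} = c {j} - c {i} := by
  unfold dd
  rw [Finset.sum_pair h.ne]
  have h1 : (({i, j} : Finset ι).filter (fun u => u < i)).card = 0 := by
    rw [Finset.card_eq_zero, Finset.filter_eq_empty_iff]
    intro u hu
    simp only [Finset.mem_insert, Finset.mem_singleton] at hu
    rcases hu with rfl | rfl
    · exact lt_irrefl _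
    · exact not_lt.mpr h.le
  have h2 : (({i, j} : Finset ι).filter (fun u => u < j)) = {i} := by
    ext u
    simp only [Finset.mem_filter, Finset.mem_insert, Finset.mem_singleton]
    constructor
    · rintro ⟨rfl | rfl, h3⟩
      · rfl
      · exact absurd h3 (lt_irrefl _)
    · rintro rfl
      exact ⟨Or.inl rfl, h⟩
  have h3 : ({i, j} : Finset ι).erase i = {j} := by
    ext u
    simp only [Finset.mem_erase, Finset.mem_insert, Finset.mem_singleton]
    constructor
    · rintro ⟨h3, h4 | h4⟩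
      · exact absurd h4 h3
      · exact h4
    · rintro rfl
      exact ⟨h.ne', Or.inr rfl⟩
  have h4 : ({i, j} : Finset ι).erase j = {i} := by
    ext u
    simp only [Finset.mem_erase, Finset.mem_insert, Finset.mem_singleton]
    constructor
    · rintro ⟨h3, h4 | h4⟩
      · exact h4
      · exact absurd h4 h3
    · rintro rfl
      exact ⟨h.ne, Or.inl rfl⟩
  rw [h1, h2, h3, h4]
  simp
  abel

/-- CONN: the complex is connected. -/
theorem conn : S_SYM → S_GRO1 → S_CONN := by
  intro hSYM hGRO K L ι _ _ _ _ _ x w Δ hmod hgr γ hγ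
  classical
  have hx := hmod.ne
  -- the unit has weight exactly zero
  have hone : ∀ i, (1 : L) ∉ WSec K x w 0 (-1) {i} := by
    intro i h1
    have h2 := (hSYM K L ι x w Δ hx hgr).2.1 0 0 {i} (Finsupp.single 0 1) ?_ ?_
    · have h3 := DFunLike.congr_fun h2 (0 : ι → ℤ)
      simp at h3
    · intro b hb
      have hb0 : b = 0 := by
        have := Finsupp.support_single_subset hb
        simpa using this
      subst hb0
      refine ⟨by simp [degz], by simp [wtz], by simp, ?_⟩
      simpa using hgr.sing i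
    · rw [Finsupp.sum_single_index (by simp)]
      simpa [monz] using h1
  set γ' : Finset ι → K := fun S => if S ∈ Δ ∧ S.card = 1 then ∑ i ∈ S, γ i else 0 with hγ'
  have hγs : ∀ i, γ' {i} = γ i := by
    intro i
    simp [hγ', hgr.sing i]
  obtain ⟨c, hc1, hc2⟩ := hGRO K L ι x w Δ hmod hgr 0 1 γ' le_rfl (by
    intro S hS
    refine ⟨?_, ?_⟩
    · intro i hi
      simp [supp] at hi
    · by_contra h
      exact hS (by simp [hγ', h])) (by
    intro T hT hcard
    obtain ⟨i, j, hij, rfl⟩ := Finset.card_eq_two.mp hcard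
    rcases lt_or_gt_of_ne hij with h | h
    · rw [dd_pair γ' h, hγs, hγs, hγ i j hT, sub_self]
    · rw [Finset.pair_comm, dd_pair γ' h, hγs, hγs, hγ i j hT, sub_self])
  have hd0 : (-(deg (0 : ι → ℕ) : ℤ)) = 0 := by simp [deg]
  have hw0 : (-(wt w (0 : ι → ℕ) : ℤ)) = 0 := by simp [wt]
  have hm0 : monz x (fun i => -(((0 : ι → ℕ) i : ℕ) : ℤ)) = 1 := by simp [monz]
  rw [hd0, hw0] at hc1 hc2
  have hc3 : ∀ i, c {i} - algebraMap K L (γ i) ∈ WSec K x w 0 (-1) {i} := by
    intro i
    have h := hc2 {i} (hgr.sing i) (by simp)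
    rw [hm0, hγs, Algebra.smul_def, mul_one] at h
    simpa using h
  have hcc : ∀ i j, c {i} = c {j} := by
    intro i j
    rcases lt_trichotomy i j with h | h | h
    · have h1 := hc1.2 {i, j} (by rw [Finset.card_pair h.ne])
      rw [dd_pair c h] at h1
      exact (sub_eq_zero.mp h1).symm
    · rw [h]
    · have h1 := hc1.2 {j, i} (by rw [Finset.card_pair h.ne])
      rw [dd_pair c h] at h1
      exact sub_eq_zero.mp h1
  have hint : ∀ i0, IsIntegral K (c {i0}) := by
    intro i0
    refine integral_of_pow x hx i0 (c {i0}) ?_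
    intro i
    have h1 := hc1.1 {i} (by simp)
    rw [hcc i i0, mem_WSec] at h1
    obtain ⟨N, hN⟩ := h1
    exact ⟨N, V_of_WV x w N _ hN⟩
  have hval : ∀ i, c {i} = algebraMap K L (γ i) := by
    intro i
    by_contra hne
    have h1 : c {i} - algebraMap K L (γ i) ≠ 0 := sub_ne_zero.mpr hne
    have h2 : IsIntegral K (c {i} - algebraMap K L (γ i)) :=
      (hint i).sub isIntegral_algebraMap
    exact hone i (one_mem x w i h1 h2 (hc3 i))
  intro i j
  apply (algebraMap K L).injective
  rw [← hval i, ← hval j, hcc i j]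

end Pool.Agent.Y41.GS
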